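import Pool.Agent.W91.BH.Stm2

set_option autoImplicit false

/-! Carleson embedding for dyadic cubes. -/

open MeasureTheory
open scoped ENNReal

namespace Pool.Agent.W987.BH

open Pool.Agent.W91.BH

namespace Carl

theorem meas_cube (n : ℕ) (Q : Idx n) : MeasurableSet (cube n Q) := by
  have h : cube n Q = ⋂ i : Fin n, {x : E n | ⌊(2 : ℝ) ^ Q.1 * x i⌋ = Q.2 i} := by
    ext x
    simp [cube]
  rw [h]
  refine MeasurableSet.iInter fun i => ?_
  have h1 : Measurable (fun x : E n => ⌊(2 : ℝ) ^ Q.1 * x i⌋) := by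
    refine Int.measurable_floor.comp (Measurable.const_mul ?_ _)
    exact (EuclideanSpace.proj (𝕜 := ℝ) i).continuous.measurable
  exact h1 (measurableSet_singleton (Q.2 i))

theorem vol_cube (n : ℕ) (Q : Idx n) :
    volume (cube n Q) = ENNReal.ofReal ((2 : ℝ) ^ (-((Q.1 : ℝ) * n))) := by
  have hk : (0 : ℝ) < (2 : ℝ) ^ Q.1 := by positivity
  have h : cube n Q = (WithLp.ofLp : E n → (Fin n → ℝ)) ⁻¹'
      (Set.pi Set.univ (fun i => Set.Ico ((Q.2 i : ℝ) / 2 ^ Q.1) (((Q.2 i : ℝ) + 1) / 2 ^ Q.1))) := by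
    ext x
    simp only [cube, Set.mem_ofPred_eq, Set.mem_preimage, Set.mem_pi, Set.mem_univ, true_imp_iff,
      Set.mem_Ico]
    refine forall_congr' fun i => ?_
    rw [Int.floor_eq_iff, div_le_iff₀ hk, lt_div_iff₀ hk]
    rw [mul_comm (x.ofLp i)]
  rw [h, (PiLp.volume_preserving_ofLp (Fin n)).measure_preimage
    (MeasurableSet.univ_pi fun i => measurableSet_Ico).nullMeasurableSet, Real.volume_pi_Ico]
  have h3 : ∀ i : Fin n, ((Q.2 i : ℝ) + 1) / 2 ^ Q.1 - (Q.2 i : ℝ) / 2 ^ Q.1 = ((2 : ℝ) ^ Q.1)⁻¹ := by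
    intro i
    field_simp
    ring
  simp_rw [h3]
  rw [Finset.prod_const, Finset.card_univ, Fintype.card_fin, ← ENNReal.ofReal_pow (by positivity)]
  congr 1
  rw [Real.rpow_neg (by norm_num), Real.rpow_mul (by norm_num), Real.rpow_natCast,
    Real.rpow_natCast, inv_pow]

lemma floor_div_eq (m : ℝ) (hm : 0 < m) (hmi : ∃ z : ℤ, (z : ℝ) = m) (s t : ℝ)
    (h : ⌊s⌋ = ⌊t⌋) : ⌊s / m⌋ = ⌊t / m⌋ := by
  obtain ⟨z, hz⟩ := hmi
  have key : ∀ s t : ℝ, ⌊s⌋ = ⌊t⌋ → ⌊s / m⌋ ≤ ⌊t / m⌋ := by
    intro s t h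
    rw [Int.le_floor, le_div_iff₀ hm]
    have h1 : (⌊s / m⌋ : ℝ) * m ≤ s := by
      rw [← le_div_iff₀ hm]
      exact Int.floor_le _
    have h2 : ⌊s / m⌋ * z ≤ ⌊s⌋ := by
      rw [Int.le_floor]
      push_cast
      rw [hz]
      exact h1
    have h3 : ((⌊s / m⌋ * z : ℤ) : ℝ) ≤ t := by
      calc ((⌊s / m⌋ * z : ℤ) : ℝ) ≤ (⌊s⌋ : ℝ) := by exact_mod_cast h2
        _ = (⌊t⌋ : ℝ) := by rw [h]
        _ ≤ t := Int.floor_le _
    push_cast at h3
    rw [hz] at h3
    exact h3
  exact le_antisymm (key s t h) (key t s h.symm)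

lemma cube_nested (n : ℕ) (P Q : Idx n) (x : E n) (hP : x ∈ cube n P) (hQ : x ∈ cube n Q)
    (h : P.1 ≤ Q.1) : cube n Q ⊆ cube n P := by
  intro y hy i
  have h1 : ⌊(2 : ℝ) ^ Q.1 * y i⌋ = ⌊(2 : ℝ) ^ Q.1 * x i⌋ := by rw [hy i, hQ i]
  have hpow : (2 : ℝ) ^ Q.1 = (2 : ℝ) ^ P.1 * (2 : ℝ) ^ (Q.1 - P.1) := by
    rw [← pow_add]
    congr 1
    omega
  have h2 := floor_div_eq ((2 : ℝ) ^ (Q.1 - P.1)) (by positivity)
    ⟨2 ^ (Q.1 - P.1), by push_cast; rfl⟩ _ _ h1
  have e : ∀ t : ℝ, (2 : ℝ) ^ Q.1 * t / (2 : ℝ) ^ (Q.1 - P.1) = (2 : ℝ) ^ P.1 * t := by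
    intro t
    rw [hpow]
    field_simp
  rw [e, e] at h2
  rw [h2]
  exact hP i


open Classical in
/-- packing -/
theorem pack (n : ℕ) (G : Finset (Idx n)) (v : Idx n → ℝ) (A : ℝ) (hA : 0 ≤ A)
    (hv : ∀ Q, 0 ≤ v Q)
    (hp : ∀ P ∈ G, ∑ Q ∈ G.filter (fun Q => cube n Q ⊆ cube n P), v Q
      ≤ A * (2 : ℝ) ^ (-((P.1 : ℝ) * n))) (S : Finset (Idx n)) :
    S ⊆ G → ENNReal.ofReal (∑ Q ∈ S, v Q) ≤
      ENNReal.ofReal A * volume (⋃ Q ∈ S, cube n Q) := by
  induction S using Finset.strongInduction with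
  | H S ih =>
    intro hSG
    rcases S.eq_empty_or_nonempty with rfl | hne
    · simp
    obtain ⟨P, hP, hmin⟩ := Finset.exists_min_image S (fun Q => Q.1) hne
    set S2 := S.filter (fun Q => ¬ cube n Q ⊆ cube n P) with hS2
    have hS2S : S2 ⊂ S := by
      rw [Finset.ssubset_iff_of_subset (Finset.filter_subset _ _)]
      exact ⟨P, hP, fun h => (Finset.mem_filter.1 h).2 le_rfl⟩
    have ih2 := ih S2 hS2S (hS2S.1.trans hSG)
    have hsplit := Finset.sum_filter_add_sum_filter_not S (fun Q => cube n Q ⊆ cube n P) v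
    have h1 : ∑ Q ∈ S.filter (fun Q => cube n Q ⊆ cube n P), v Q ≤
        A * (2 : ℝ) ^ (-((P.1 : ℝ) * n)) := by
      refine le_trans (Finset.sum_le_sum_of_subset_of_nonneg ?_ (fun Q _ _ => hv Q))
        (hp P (hSG hP))
      exact Finset.filter_subset_filter _ hSG
    have hdisj : Disjoint (cube n P) (⋃ Q ∈ S2, cube n Q) := by
      rw [Set.disjoint_left]
      intro x hxP hx
      simp only [Set.mem_iUnion] at hx
      obtain ⟨Q, hQ, hxQ⟩ := hx
      have hQ' := Finset.mem_filter.1 hQ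
      exact hQ'.2 (cube_nested n P Q x hxP hxQ (hmin Q hQ'.1))
    have hmeas : MeasurableSet (⋃ Q ∈ S2, cube n Q) :=
      Finset.measurableSet_biUnion _ (fun Q _ => meas_cube n Q)
    rw [← hsplit]
    calc ENNReal.ofReal (∑ Q ∈ S.filter (fun Q => cube n Q ⊆ cube n P), v Q + ∑ Q ∈ S2, v Q)
        ≤ ENNReal.ofReal (∑ Q ∈ S.filter (fun Q => cube n Q ⊆ cube n P), v Q) +
          ENNReal.ofReal (∑ Q ∈ S2, v Q) := ENNReal.ofReal_add_le
      _ ≤ ENNReal.ofReal A * volume (cube n P) +
          ENNReal.ofReal A * volume (⋃ Q ∈ S2, cube n Q) := by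
          apply add_le_add _ ih2
          rw [vol_cube, ← ENNReal.ofReal_mul hA]
          exact ENNReal.ofReal_le_ofReal h1
      _ = ENNReal.ofReal A * volume (cube n P ∪ ⋃ Q ∈ S2, cube n Q) := by
          rw [measure_union hdisj hmeas, mul_add]
      _ ≤ ENNReal.ofReal A * volume (⋃ Q ∈ S, cube n Q) := by
          apply mul_le_mul_right
          apply measure_mono
          apply Set.union_subset
          · exact Set.subset_biUnion_of_mem (u := fun Q => cube n Q) hP
          · exact Set.biUnion_subset_biUnion_left (fun Q hQ => hS2S.1 hQ)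

open Classical in
theorem layer (n : ℕ) (G : Finset (Idx n)) (v : Idx n → ℝ) (A : ℝ) (hA : 0 ≤ A)
    (hv : ∀ Q, 0 ≤ v Q)
    (hp : ∀ P ∈ G, ∑ Q ∈ G.filter (fun Q => cube n Q ⊆ cube n P), v Q
      ≤ A * (2 : ℝ) ^ (-((P.1 : ℝ) * n))) (m : ℕ) :
    ∀ c : Idx n → ℝ, (∀ Q, 0 ≤ c Q) → (G.filter (fun Q => 0 < c Q)).card ≤ m →
    ENNReal.ofReal (∑ Q ∈ G, c Q * v Q) ≤ ENNReal.ofReal A *
      ∫⁻ x, ⨆ Q ∈ G, (cube n Q).indicator (fun _ => ENNReal.ofReal (c Q)) x := by
  induction m with
  | zero =>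
    intro c hc hcard
    have h0 : ∀ Q ∈ G, c Q = 0 := by
      intro Q hQ
      by_contra hne
      have hpos : 0 < c Q := lt_of_le_of_ne (hc Q) (Ne.symm hne)
      have hmem : Q ∈ G.filter (fun Q => 0 < c Q) := Finset.mem_filter.2 ⟨hQ, hpos⟩
      have := Finset.card_pos.2 ⟨Q, hmem⟩
      omega
    have h1 : ∑ Q ∈ G, c Q * v Q = 0 := Finset.sum_eq_zero (fun Q hQ => by rw [h0 Q hQ, zero_mul])
    rw [h1, ENNReal.ofReal_zero]
    exact bot_le
  | succ m ih =>
    intro c hc hcard
    set S := G.filter (fun Q => 0 < c Q) with hS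
    rcases S.eq_empty_or_nonempty with hemp | hne
    · have h0 : ∀ Q ∈ G, c Q = 0 := by
        intro Q hQ
        by_contra hne
        have hpos : 0 < c Q := lt_of_le_of_ne (hc Q) (Ne.symm hne)
        have hmem : Q ∈ S := Finset.mem_filter.2 ⟨hQ, hpos⟩
        rw [hemp] at hmem
        exact absurd hmem (Finset.notMem_empty Q)
      have h1 : ∑ Q ∈ G, c Q * v Q = 0 :=
        Finset.sum_eq_zero (fun Q hQ => by rw [h0 Q hQ, zero_mul])
      rw [h1, ENNReal.ofReal_zero]
      exact bot_le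
    obtain ⟨Q0, hQ0, hmin⟩ := Finset.exists_min_image S c hne
    set t := c Q0 with ht
    have ht0 : 0 < t := (Finset.mem_filter.1 hQ0).2
    set c' : Idx n → ℝ := fun Q => if Q ∈ S then c Q - t else 0 with hc'
    have hc'0 : ∀ Q, 0 ≤ c' Q := by
      intro Q
      simp only [hc']
      split_ifs with h
      · linarith [hmin Q h]
      · exact le_rfl
    have hcard' : (G.filter (fun Q => 0 < c' Q)).card ≤ m := by
      have hss : G.filter (fun Q => 0 < c' Q) ⊂ S := by
        rw [Finset.ssubset_iff_of_subset]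
        · refine ⟨Q0, hQ0, fun h => ?_⟩
          have := (Finset.mem_filter.1 h).2
          simp only [hc', if_pos hQ0] at this
          linarith
        · intro Q hQ
          have := (Finset.mem_filter.1 hQ).2
          simp only [hc'] at this
          split_ifs at this with h
          · exact h
          · exact absurd this (lt_irrefl _)
      have := Finset.card_lt_card hss
      omega
    have ih' := ih c' hc'0 hcard'
    have hpk := pack n G v A hA hv hp S (Finset.filter_subset _ _)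
    set U := ⋃ Q ∈ S, cube n Q with hU
    have hUm : MeasurableSet U := Finset.measurableSet_biUnion _ (fun Q _ => meas_cube n Q)
    have hsum : ∑ Q ∈ G, c Q * v Q = ∑ Q ∈ G, c' Q * v Q + t * ∑ Q ∈ S, v Q := by
      rw [hS, Finset.sum_filter, Finset.mul_sum, ← Finset.sum_add_distrib]
      apply Finset.sum_congr rfl
      intro Q hQ
      by_cases h : 0 < c Q
      · have hmem : Q ∈ S := Finset.mem_filter.2 ⟨hQ, h⟩
        simp only [hc', if_pos hmem, if_pos h]
        ring
      · have hmem : Q ∉ S := fun h2 => h (Finset.mem_filter.1 h2).2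
        have : c Q = 0 := le_antisymm (not_lt.1 h) (hc Q)
        simp only [hc', if_neg hmem]
        rw [if_neg h, this]
        ring
    have hint : (∫⁻ x, ⨆ Q ∈ G, (cube n Q).indicator (fun _ => ENNReal.ofReal (c' Q)) x) +
        ENNReal.ofReal t * volume U ≤
        ∫⁻ x, ⨆ Q ∈ G, (cube n Q).indicator (fun _ => ENNReal.ofReal (c Q)) x := by
      rw [← lintegral_indicator_const hUm, ← lintegral_add_right _
        (measurable_const.indicator hUm)]
      apply lintegral_mono
      intro x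
      show (⨆ Q ∈ G, (cube n Q).indicator (fun _ => ENNReal.ofReal (c' Q)) x) +
        U.indicator (fun _ => ENNReal.ofReal t) x ≤
        ⨆ Q ∈ G, (cube n Q).indicator (fun _ => ENNReal.ofReal (c Q)) x
      set M := ⨆ Q ∈ G, (cube n Q).indicator (fun _ => ENNReal.ofReal (c Q)) x with hM
      have hle : ∀ Q ∈ G, x ∈ cube n Q → ENNReal.ofReal (c Q) ≤ M := by
        intro Q hQ hx
        have := le_iSup₂ (f := fun (Q : Idx n) (_ : Q ∈ G) =>
          (cube n Q).indicator (fun _ => ENNReal.ofReal (c Q)) x) Q hQ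
        simp only [Set.indicator_of_mem hx] at this
        exact this
      by_cases hxU : x ∈ U
      · rw [Set.indicator_of_mem hxU]
        have htM : ENNReal.ofReal t ≤ M := by
          rw [hU] at hxU
          simp only [Set.mem_iUnion] at hxU
          obtain ⟨Q1, hQ1, hx1⟩ := hxU
          exact (ENNReal.ofReal_le_ofReal (hmin Q1 hQ1)).trans
            (hle Q1 (Finset.mem_filter.1 hQ1).1 hx1)
        have hsub : (⨆ Q ∈ G, (cube n Q).indicator (fun _ => ENNReal.ofReal (c' Q)) x) ≤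
            M - ENNReal.ofReal t := by
          apply iSup₂_le
          intro Q hQ
          apply ENNReal.le_sub_of_add_le_right ENNReal.ofReal_ne_top
          by_cases hx : x ∈ cube n Q
          · rw [Set.indicator_of_mem hx]
            by_cases hQS : Q ∈ S
            · simp only [hc', if_pos hQS]
              rw [← ENNReal.ofReal_add (by linarith [hmin Q hQS]) ht0.le]
              have : c Q - t + t = c Q := by ring
              rw [this]
              exact hle Q hQ hx
            · simp only [hc', if_neg hQS]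
              rw [ENNReal.ofReal_zero, zero_add]
              exact htM
          · rw [Set.indicator_of_notMem hx, zero_add]
            exact htM
        calc (⨆ Q ∈ G, (cube n Q).indicator (fun _ => ENNReal.ofReal (c' Q)) x) +
              ENNReal.ofReal t ≤ (M - ENNReal.ofReal t) + ENNReal.ofReal t :=
              add_le_add hsub le_rfl
          _ = M := tsub_add_cancel_of_le htM
      · rw [Set.indicator_of_notMem hxU, add_zero]
        apply iSup₂_le
        intro Q hQ
        by_cases hx : x ∈ cube n Q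
        · rw [Set.indicator_of_mem hx]
          refine le_trans (ENNReal.ofReal_le_ofReal ?_) (hle Q hQ hx)
          simp only [hc']
          split_ifs with h
          · linarith
          · exact hc Q
        · rw [Set.indicator_of_notMem hx]
          exact bot_le
    rw [hsum]
    calc ENNReal.ofReal (∑ Q ∈ G, c' Q * v Q + t * ∑ Q ∈ S, v Q)
        ≤ ENNReal.ofReal (∑ Q ∈ G, c' Q * v Q) + ENNReal.ofReal (t * ∑ Q ∈ S, v Q) :=
          ENNReal.ofReal_add_le
      _ ≤ ENNReal.ofReal A * (∫⁻ x, ⨆ Q ∈ G,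
            (cube n Q).indicator (fun _ => ENNReal.ofReal (c' Q)) x) +
          ENNReal.ofReal A * (ENNReal.ofReal t * volume U) := by
          apply add_le_add ih'
          rw [ENNReal.ofReal_mul ht0.le]
          calc ENNReal.ofReal t * ENNReal.ofReal (∑ Q ∈ S, v Q)
              ≤ ENNReal.ofReal t * (ENNReal.ofReal A * volume U) := by gcongr
            _ = ENNReal.ofReal A * (ENNReal.ofReal t * volume U) := by ring
      _ = ENNReal.ofReal A * ((∫⁻ x, ⨆ Q ∈ G,
            (cube n Q).indicator (fun _ => ENNReal.ofReal (c' Q)) x) +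
            ENNReal.ofReal t * volume U) := by rw [mul_add]
      _ ≤ _ := by gcongr

end Carl

theorem carl : S_CARL := by
  intro n G c v A hA hc hv hp
  exact Carl.layer n G v A hA hv hp _ c hc le_rfl

end Pool.Agent.W987.BH
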