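import Pool.Agent.W91.BH.Stm2

set_option autoImplicit false

/-! The cost bounds the integral of the supremum. -/

namespace Pool.Agent.W987.BH

open MeasureTheory Set
open Pool.Agent.W91.BH

theorem supf : S_SUPF := by
  intro n α p s G hp
  unfold fCost
  apply lintegral_mono
  intro x
  apply iSup₂_le
  intro Q hQ
  by_cases hx : x ∈ cube n Q
  · rw [indicator_of_mem hx]
    have hc : 0 ≤ (2 : ℝ) ^ ((Q.1 : ℝ) * α) * |s Q| := by positivity
    have h1 : ENNReal.ofReal (((2 : ℝ) ^ ((Q.1 : ℝ) * α) * |s Q|) ^ (2 : ℝ)) ≤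
        ∑' Q : Idx n, (cube n Q).indicator
          (fun _ => ENNReal.ofReal (((2 : ℝ) ^ ((Q.1 : ℝ) * α) * |s Q|) ^ (2 : ℝ))) x := by
      have h2 := ENNReal.le_tsum (f := fun Q : Idx n => (cube n Q).indicator
          (fun _ => ENNReal.ofReal (((2 : ℝ) ^ ((Q.1 : ℝ) * α) * |s Q|) ^ (2 : ℝ))) x) Q
      simp only [indicator_of_mem hx] at h2
      exact h2
    have h3 : ENNReal.ofReal (((2 : ℝ) ^ ((Q.1 : ℝ) * α) * |s Q|) ^ p) =
        ENNReal.ofReal (((2 : ℝ) ^ ((Q.1 : ℝ) * α) * |s Q|) ^ (2 : ℝ)) ^ (p / 2) := by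
      rw [ENNReal.ofReal_rpow_of_nonneg (by positivity) (by positivity), ← Real.rpow_mul hc]
      congr 2
      ring
    rw [h3]
    exact ENNReal.rpow_le_rpow h1 (by positivity)
  · rw [indicator_of_notMem hx]
    exact bot_le

end Pool.Agent.W987.BH
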